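import Pool.Agent.Work.MP_f7e2e5_gt.Cross

open MeasureTheory Set

namespace Pool.Agent.Results.MP_f7e2e5_gt.Cross

open Pool.Agent.Work.MP_f7e2e5_gt

/-- The complete answer for measures supported on the `2n` coordinate directions. -/
theorem result {n : ℕ} {p : ℝ} (hp : 1 < p) (hpn : p < n) (μ : Measure (Sph n))
    [IsFiniteMeasure μ] (hμ : μ {ξ | ∀ i : Fin n, |(ξ : Eu n) i| ≠ 1} = 0) :
    (∃ K, Solves p K μ) ↔
      (∀ i : Fin n, μ {ξ | (ξ : Eu n) i = 1} ≠ 0 ∧ μ {ξ | (ξ : Eu n) i = -1} ≠ 0) ∧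
        ∀ S : Finset (Fin n), S.Nonempty →
          μ.real {ξ | ∃ i ∈ S, |(ξ : Eu n) i| = 1} < S.card / (n - p) * μ.real univ :=
  cross_iff hp hpn μ hμ

end Pool.Agent.Results.MP_f7e2e5_gt.Cross
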