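import Pool.Agent.Work.MP_f7e2e5_gt.Sy.Main

/-! The former hand-in on even measures, now derived from the theorem on invariant measures. -/

open MeasureTheory
open scoped NNReal Pointwise

namespace Pool.Agent.Work.MP_f7e2e5_gt.Parked.EvenDensity

open Pool.Agent.Work.MP_f7e2e5_gt Pool.Agent.Work.MP_f7e2e5_gt.Sy

theorem even_case {n : ℕ} {p : ℝ} (hp : 1 < p) (hpn : p < n) (μ : Measure (Sph n))
    [IsFiniteMeasure μ] (h0 : μ ≠ 0) (hev : μ.map (fun ξ => -ξ) = μ)
    (h : (3 ≤ n ∧ ∃ Λ : ℝ≥0, μ ≤ Λ • (volume : Measure (Eu n)).toSphere) ∨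
      (DecayHyper μ ∧ DecayLow p μ)) :
    ∃ K : Set (Eu n), K = -K ∧ Solves p K μ := by
  let e : Iso n := LinearIsometryEquiv.neg ℝ
  have hm : ∀ g : Iso n, Measurable (sphMap g) := fun g => (sphMap_cont g).measurable
  let G : Subgroup (Iso n) :=
    { carrier := {g | μ.map (sphMap g) = μ}
      one_mem' := Measure.map_id
      mul_mem' := fun {a b} ha hb => by
        change μ.map (sphMap a ∘ sphMap b) = μ
        rw [← Measure.map_map (hm a) (hm b), hb, ha]
      inv_mem' := fun {a} ha => by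
        change μ.map (sphMap a⁻¹) = μ
        conv_lhs => rw [← ha, Measure.map_map (hm _) (hm _)]
        have e : sphMap a⁻¹ ∘ sphMap a = id := by
          ext ξ
          simp [sphMap]
        rw [e, Measure.map_id] }
  have he : e ∈ G := hev
  obtain ⟨K, h1, h2⟩ := main hp hpn G (fun v hv => (smul_eq_zero.1
    ((two_smul ℝ v).trans (neg_eq_iff_add_eq_zero.1 (hv e he)))).resolve_left two_ne_zero) μ h0
    (fun g hg => hg) (h.imp_right fun h => of_decay hpn h0 h.1 h.2)
  exact ⟨K, (h1 e he).symm.trans (Set.image_neg_eq_neg), h2⟩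

end Pool.Agent.Work.MP_f7e2e5_gt.Parked.EvenDensity
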