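import Pool.Agent.Work.MP_f7e2e5_gt.BMain

open MeasureTheory Set
open scoped RealInnerProductSpace

namespace Pool.Agent.Results.MP_f7e2e5_gt.SymmetricDiscrete

open Pool.Agent.Work.MP_f7e2e5_gt

/-- Finitely supported measures whose support `U` is origin-symmetric (the masses need not be).
If every proper subspace `L` spanned by atoms with `dim L > p` has
`μ(L) > (dim L - p)/(n - p) |μ|` (no condition at all when `p ≥ n - 1`), then `μ` is a logarithmic
`p`-capacitary measure if and only if `U` spans. -/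
theorem result {n : ℕ} {p : ℝ} (hp : 1 < p) (hpn : p < n) (μ : Measure (Sph n))
    [IsFiniteMeasure μ] (U : Finset (Sph n)) (hU : μ (U : Set (Sph n))ᶜ = 0)
    (hpos : ∀ ξ ∈ U, μ {ξ} ≠ 0) (hsym : ∀ ξ ∈ U, -ξ ∈ U)
    (hL : ∀ L : Submodule ℝ (Eu n), L ≠ ⊤ → p < Module.finrank ℝ L →
      L = Submodule.span ℝ ((fun ξ : Sph n => (ξ : Eu n)) '' {ξ | ξ ∈ U ∧ (ξ : Eu n) ∈ L}) →
      (Module.finrank ℝ L - p) / (n - p) * μ.real univ < μ.real {ξ | (ξ : Eu n) ∈ L}) :
    (∃ K, Solves p K μ) ↔ Submodule.span ℝ ((fun ξ : Sph n => (ξ : Eu n)) '' U) = ⊤ := by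
  constructor
  · rintro ⟨K, hK⟩
    by_contra hne
    have h1 : (Submodule.span ℝ ((fun ξ : Sph n => (ξ : Eu n)) '' U))ᗮ ≠ ⊥ := by
      rw [Ne, Submodule.orthogonal_eq_bot_iff]
      exact hne
    obtain ⟨v, hv, hv0⟩ := Submodule.exists_mem_ne_zero_of_ne_bot h1
    refine hK.hemisphere hp hpn hv0 (measure_mono_null ?_ hU)
    intro ξ hξ hξU
    have := (Submodule.mem_orthogonal _ v).1 hv ξ (Submodule.subset_span ⟨ξ, hξU, rfl⟩)
    simp only [mem_ofPred_eq] at hξ
    exact hξ.ne' this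
  · intro hspan
    refine discrete_suff hp hpn μ U hU hpos hsym hspan (fun L hLt hLs => ?_)
    by_cases hk : p < Module.finrank ℝ L
    · exact hL L hLt hk hLs
    have hq : 0 < (n : ℝ) - p := by linarith
    have hreal : ∀ (ξ : Sph n) (A : Set (Sph n)), ξ ∈ U → ξ ∈ A → 0 < μ.real A := by
      intro ξ A hξ hA
      refine ENNReal.toReal_pos (fun h0 => hpos ξ hξ (measure_mono_null ?_ h0)) (measure_ne_top _ _)
      exact singleton_subset_iff.2 hA
    by_cases hex : ∃ ξ ∈ U, (ξ : Eu n) ∈ L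
    · obtain ⟨ξ, hξ, hξL⟩ := hex
      have h2 : (Module.finrank ℝ L - p) / (n - p) * μ.real univ ≤ 0 :=
        mul_nonpos_of_nonpos_of_nonneg (div_nonpos_of_nonpos_of_nonneg (by linarith) hq.le)
          measureReal_nonneg
      exact h2.trans_lt (hreal ξ _ hξ hξL)
    · have hbot : L = ⊥ := by
        rw [hLs, Submodule.span_eq_bot]
        rintro _ ⟨ξ, ⟨hξ, hξL⟩, rfl⟩
        exact absurd ⟨ξ, hξ, hξL⟩ hex
      have hne : U.Nonempty := by
        rw [Finset.nonempty_iff_ne_empty]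
        rintro rfl
        apply hLt
        rw [hbot, ← hspan]
        simp
      obtain ⟨ξ, hξ⟩ := hne
      have h3 : (Module.finrank ℝ L : ℝ) = 0 := by rw [hbot]; simp
      have h4 : (Module.finrank ℝ L - p) / (n - p) < 0 :=
        div_neg_of_neg_of_pos (by rw [h3]; linarith) hq
      exact (mul_neg_of_neg_of_pos h4 (hreal ξ _ hξ (mem_univ _))).trans_le measureReal_nonneg

end Pool.Agent.Results.MP_f7e2e5_gt.SymmetricDiscrete
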